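import Pool.Agent.R779.FJ.Col
import Mathlib.Data.Matrix.Composition
import Mathlib.LinearAlgebra.Matrix.Reindex

/-!
# Units which are local with respect to an idempotent
-/

set_option autoImplicit false

namespace Pool.Agent.K7.H29.LU

open Matrix

/-- `x ∈ e S e` -/
def InC {S : Type} [Ring S] (e x : S) : Prop := e * x = x ∧ x * e = x

section

variable {S : Type} [Ring S] {e : S}

theorem InC.add {x y : S} (hx : InC e x) (hy : InC e y) : InC e (x + y) :=
  ⟨by rw [mul_add, hx.1, hy.1], by rw [add_mul, hx.2, hy.2]⟩

theorem InC.sub {x y : S} (hx : InC e x) (hy : InC e y) : InC e (x - y) :=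
  ⟨by rw [mul_sub, hx.1, hy.1], by rw [sub_mul, hx.2, hy.2]⟩

theorem InC.neg {x : S} (hx : InC e x) : InC e (-x) :=
  ⟨by rw [mul_neg, hx.1], by rw [neg_mul, hx.2]⟩

theorem InC.zero : InC e 0 := ⟨mul_zero _, zero_mul _⟩

theorem InC.mul {x y : S} (hx : InC e x) (hy : InC e y) : InC e (x * y) :=
  ⟨by rw [← mul_assoc, hx.1], by rw [mul_assoc, hy.2]⟩

/-- the units which differ from `1` by an element of `e S e` -/
def Loc (e : S) : Subgroup Sˣ where
  carrier := {u | InC e (u.val - 1)}
  one_mem' := by
    show InC e ((1 : Sˣ).val - 1)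
    rw [Units.val_one, sub_self]
    exact InC.zero
  mul_mem' := by
    intro u v hu hv
    show InC e ((u * v).val - 1)
    have h1 : (u * v).val - 1 = (u.val - 1) * (v.val - 1) + (u.val - 1) + (v.val - 1) := by
      rw [Units.val_mul]
      noncomm_ring
    rw [h1]
    exact ((InC.mul hu hv).add hu).add hv
  inv_mem' := by
    intro u hu
    show InC e (u⁻¹.val - 1)
    have h1 : u⁻¹.val - 1 = -((u.val - 1) * u⁻¹.val) := by
      rw [sub_mul, Units.mul_inv, one_mul, neg_sub]
    have h2 : u⁻¹.val - 1 = -(u⁻¹.val * (u.val - 1)) := by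
      rw [mul_sub, Units.inv_mul, mul_one, neg_sub]
    constructor
    · rw [h1, mul_neg, ← mul_assoc, hu.1]
    · rw [h2, neg_mul, mul_assoc, hu.2]

theorem mem_Loc {u : Sˣ} : u ∈ Loc e ↔ InC e (u.val - 1) := Iff.rfl

end

section

variable {S : Type} [Ring S] {e : S} {ι : Type} [Fintype ι] [DecidableEq ι]

theorem InC_diag {x : Matrix ι ι S} : InC (diagonal fun _ => e) x ↔ ∀ i j, InC e (x i j) := by
  constructor
  · intro h i j
    constructor
    · have := congrFun (congrFun h.1 i) j
      rwa [diagonal_mul] at this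
    · have := congrFun (congrFun h.2 i) j
      rwa [mul_diagonal] at this
  · intro h
    constructor
    · ext i j
      rw [diagonal_mul]
      exact (h i j).1
    · ext i j
      rw [mul_diagonal]
      exact (h i j).2

theorem diag_idem (he : e * e = e) :
    (diagonal fun _ => e : Matrix ι ι S) * (diagonal fun _ => e) = diagonal fun _ => e := by
  rw [diagonal_mul_diagonal]
  simp [he]

/-- the matrix over the corner -/
def toCorner (he : IsIdempotentElem e) (x : Matrix ι ι S) : Matrix ι ι he.Corner :=
  Matrix.of fun i j => ⟨e * x i j * e, _, rfl⟩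

theorem toCorner_val (he : IsIdempotentElem e) (x : Matrix ι ι S) (i j : ι) :
    (toCorner he x i j).1 = e * x i j * e := rfl

theorem corner_sum_val (he : IsIdempotentElem e) (f : ι → he.Corner) :
    (∑ i, f i).1 = ∑ i, (f i).1 := by
  let φ : he.Corner →+ S :=
    { toFun := fun x => x.1
      map_zero' := rfl
      map_add' := fun _ _ => rfl }
  exact map_sum φ f Finset.univ

theorem toCorner_one (he : IsIdempotentElem e) : toCorner (ι := ι) he (1 : Matrix ι ι S) = 1 := by
  ext i j
  apply Subtype.ext
  rw [toCorner_val]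
  by_cases h : i = j
  · subst h
    rw [Matrix.one_apply_eq, Matrix.one_apply_eq, mul_one, he.eq]
    rfl
  · rw [Matrix.one_apply_ne h, Matrix.one_apply_ne h, mul_zero, zero_mul]
    rfl

theorem toCorner_mul (he : IsIdempotentElem e) {x y : Matrix ι ι S}
    (hx : InC (diagonal fun _ => e) (x - 1)) :
    toCorner he (x * y) = toCorner he x * toCorner he y := by
  ext i j
  apply Subtype.ext
  rw [toCorner_val, Matrix.mul_apply, Matrix.mul_apply, corner_sum_val, Finset.mul_sum,
    Finset.sum_mul]
  refine Finset.sum_congr rfl fun k _ => ?_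
  have h1 := (InC_diag.1 hx i k).2
  have h2 : e * x i k * e = e * x i k + e * (1 : Matrix ι ι S) i k * e -
      e * (1 : Matrix ι ι S) i k := by
    have h3 : (x i k - (1 : Matrix ι ι S) i k) * e = x i k - (1 : Matrix ι ι S) i k := h1
    have h4 : x i k * e = x i k - (1 : Matrix ι ι S) i k + (1 : Matrix ι ι S) i k * e := by
      rw [← h3]
      noncomm_ring
    rw [mul_assoc, h4]
    noncomm_ring
  have h5 : (e * (1 : Matrix ι ι S) i k * e - e * (1 : Matrix ι ι S) i k) = 0 := by
    by_cases h : i = k
    · subst h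
      rw [Matrix.one_apply_eq, mul_one, he.eq, sub_self]
    · rw [Matrix.one_apply_ne h, mul_zero, zero_mul, sub_self]
  have h6 : e * x i k * e = e * x i k := by
    rw [h2, add_sub_assoc, h5, add_zero]
  show e * (x i k * y k j) * e = (e * x i k * e) * (e * y k j * e)
  calc e * (x i k * y k j) * e = (e * x i k) * (y k j * e) := by noncomm_ring
    _ = (e * x i k * e) * (y k j * e) := by rw [h6]
    _ = (e * x i k * (e * e)) * (y k j * e) := by rw [he.eq]
    _ = (e * x i k * e) * (e * y k j * e) := by noncomm_ring

/-- the local units as matrices over the corner -/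
def locCorner (he : IsIdempotentElem e) :
    Loc (diagonal fun _ => e : Matrix ι ι S) →* (Matrix ι ι he.Corner)ˣ where
  toFun u := ⟨toCorner he u.1.val, toCorner he (u⁻¹).1.val, by
      rw [← toCorner_mul he u.2, ← Units.val_mul, ← Subgroup.coe_mul, mul_inv_cancel]
      exact toCorner_one he, by
      rw [← toCorner_mul he (u⁻¹).2, ← Units.val_mul, ← Subgroup.coe_mul, inv_mul_cancel]
      exact toCorner_one he⟩
  map_one' := Units.ext (toCorner_one he)
  map_mul' u v := Units.ext (toCorner_mul he u.2)

theorem locCorner_injective (he : IsIdempotentElem e) :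
    Function.Injective (locCorner (ι := ι) he) := by
  rw [injective_iff_map_eq_one]
  intro u hu
  apply Subtype.ext
  apply Units.ext
  ext i j
  have h1 : toCorner he u.1.val i j = toCorner he (1 : Matrix ι ι S) i j := by
    have h2 := congrArg Units.val hu
    have h3 : toCorner he u.1.val = 1 := h2
    rw [h3, toCorner_one]
  have h4 := congrArg Subtype.val h1
  rw [toCorner_val, toCorner_val] at h4
  have h5 := InC_diag.1 u.2 i j
  have h6 : e * (u.1.val i j - (1 : Matrix ι ι S) i j) * e =
      u.1.val i j - (1 : Matrix ι ι S) i j := by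
    have h7 : e * (u.1.val i j - (1 : Matrix ι ι S) i j) = u.1.val i j - (1 : Matrix ι ι S) i j :=
      h5.1
    rw [h7]
    exact h5.2
  have h7 : u.1.val i j - (1 : Matrix ι ι S) i j = 0 := by
    rw [← h6, mul_sub, sub_mul, h4, sub_self]
  exact sub_eq_zero.1 h7

end

end Pool.Agent.K7.H29.LU
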