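import Pool.Agent.K7.H29.LU.Loc

/-!
# Groups of units of rings and ideals with local units
-/

set_option autoImplicit false

namespace Pool.Agent.K7.H29.LU

open Matrix Pool.Agent.Y110.FJ

section ring

variable {T : Type} [Ring T] {a b e : T}

/-- the matrix which conjugates `x` to `a x b` -/
def pm (a b e : T) : Matrix (Fin 2) (Fin 2) T :=
  !![1 + a - e - a * b + a * b * e, e - a * b * e; b - b * e, 1 - e + b * e]

/-- its inverse -/
def vm (a b e : T) : Matrix (Fin 2) (Fin 2) T :=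
  !![1 + b - e - a * b + e * a * b, a - e * a; e - e * a * b, 1 - e + e * a]

theorem pm_vm (he : e * e = e) (ha : a * e = a) (hb : e * b = b) (hba : b * a = e) :
    pm a b e * vm a b e = 1 := by
  have he' : ∀ x, e * (e * x) = e * x := fun x => by rw [← mul_assoc, he]
  have ha' : ∀ x, a * (e * x) = a * x := fun x => by rw [← mul_assoc, ha]
  have hb' : ∀ x, e * (b * x) = b * x := fun x => by rw [← mul_assoc, hb]
  have hba' : ∀ x, b * (a * x) = e * x := fun x => by rw [← mul_assoc, hba]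
  rw [pm, vm, Matrix.mul_fin_two, Matrix.one_fin_two]
  congr 1
  ext i j
  fin_cases i <;> fin_cases j <;>
  · simp only [mul_add, add_mul, mul_sub, sub_mul, mul_one, one_mul, mul_assoc, he, ha, hb, hba,
      he', ha', hb', hba', Fin.mk_zero, Fin.mk_one, Matrix.cons_val_zero, Matrix.cons_val_one,
      Matrix.cons_val_fin_one]
    abel

theorem vm_pm (he : e * e = e) (ha : a * e = a) (hb : e * b = b) (hba : b * a = e) :
    vm a b e * pm a b e = 1 := by
  have he' : ∀ x, e * (e * x) = e * x := fun x => by rw [← mul_assoc, he]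
  have ha' : ∀ x, a * (e * x) = a * x := fun x => by rw [← mul_assoc, ha]
  have hb' : ∀ x, e * (b * x) = b * x := fun x => by rw [← mul_assoc, hb]
  have hba' : ∀ x, b * (a * x) = e * x := fun x => by rw [← mul_assoc, hba]
  rw [pm, vm, Matrix.mul_fin_two, Matrix.one_fin_two]
  congr 1
  ext i j
  fin_cases i <;> fin_cases j <;>
  · simp only [mul_add, add_mul, mul_sub, sub_mul, mul_one, one_mul, mul_assoc, he, ha, hb, hba,
      he', ha', hb', hba', Fin.mk_zero, Fin.mk_one, Matrix.cons_val_zero, Matrix.cons_val_one,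
      Matrix.cons_val_fin_one]
    abel

/-- the conjugation -/
theorem pm_conj (he : e * e = e) (ha : a * e = a) (hb : e * b = b) (hba : b * a = e) {x : T}
    (hx : InC e x) : pm a b e * !![1 + x, 0; 0, 1] = !![1 + a * x * b, 0; 0, 1] * pm a b e := by
  have he' : ∀ x, e * (e * x) = e * x := fun x => by rw [← mul_assoc, he]
  have ha' : ∀ x, a * (e * x) = a * x := fun x => by rw [← mul_assoc, ha]
  have hb' : ∀ x, e * (b * x) = b * x := fun x => by rw [← mul_assoc, hb]
  have hba' : ∀ x, b * (a * x) = e * x := fun x => by rw [← mul_assoc, hba]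
  have hx1 : e * x = x := hx.1
  have hx2 : x * e = x := hx.2
  have hx1' : ∀ y, e * (x * y) = x * y := fun y => by rw [← mul_assoc, hx1]
  have hx2' : ∀ y, x * (e * y) = x * y := fun y => by rw [← mul_assoc, hx2]
  rw [pm, Matrix.mul_fin_two, Matrix.mul_fin_two]
  congr 1
  ext i j
  fin_cases i <;> fin_cases j <;>
  · simp only [mul_add, add_mul, mul_sub, sub_mul, mul_one, one_mul, mul_assoc, he, ha, hb, hba,
      he', ha', hb', hba', hx1, hx2, hx1', hx2', Fin.mk_zero, Fin.mk_one, Fin.zero_eta, mul_zero,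
      zero_mul, Matrix.cons_val_zero, Matrix.cons_val_one, Matrix.cons_val_fin_one]
    abel

/-- the block inclusion of units -/
def dg : Tˣ →* (Matrix (Fin 2) (Fin 2) T)ˣ where
  toFun u := ⟨!![u.val, 0; 0, 1], !![u⁻¹.val, 0; 0, 1], by
    rw [Matrix.mul_fin_two, Matrix.one_fin_two]; simp, by
    rw [Matrix.mul_fin_two, Matrix.one_fin_two]; simp⟩
  map_one' := Units.ext (by
    show !![(1 : Tˣ).val, 0; 0, 1] = 1
    rw [Matrix.one_fin_two, Units.val_one])
  map_mul' u v := Units.ext (by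
    show !![(u * v).val, 0; 0, 1] = !![u.val, 0; 0, 1] * !![v.val, 0; 0, 1]
    rw [Matrix.mul_fin_two]; simp)

theorem dg_val (u : Tˣ) : (dg u).val = !![u.val, 0; 0, 1] := rfl

theorem dg_injective : Function.Injective (dg (T := T)) := by
  intro u v h
  have h1 := congrArg (fun w : (Matrix (Fin 2) (Fin 2) T)ˣ => w.val 0 0) h
  exact Units.ext h1

variable {e' : T}

theorem dg_mem {u : Tˣ} (hu : u ∈ Loc e') :
    dg u ∈ Loc (diagonal fun _ => e' : Matrix (Fin 2) (Fin 2) T) := by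
  rw [mem_Loc, InC_diag]
  intro i j
  rw [Matrix.sub_apply, dg_val]
  fin_cases i <;> fin_cases j
  · exact hu
  · show InC e' (0 - (1 : Matrix (Fin 2) (Fin 2) T) 0 1)
    rw [Matrix.one_apply_ne (by decide), sub_zero]
    exact InC.zero
  · show InC e' (0 - (1 : Matrix (Fin 2) (Fin 2) T) 1 0)
    rw [Matrix.one_apply_ne (by decide), sub_zero]
    exact InC.zero
  · show InC e' (1 - (1 : Matrix (Fin 2) (Fin 2) T) 1 1)
    rw [Matrix.one_apply_eq, sub_self]
    exact InC.zero

theorem pm_mem (he : InC e' e) (ha : InC e' a) (hb : InC e' b)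
    {u : (Matrix (Fin 2) (Fin 2) T)ˣ} (hu : u.val = pm a b e) :
    u ∈ Loc (diagonal fun _ => e' : Matrix (Fin 2) (Fin 2) T) := by
  rw [mem_Loc, InC_diag]
  intro i j
  rw [Matrix.sub_apply, hu, pm]
  fin_cases i <;> fin_cases j
  · show InC e' (1 + a - e - a * b + a * b * e - (1 : Matrix (Fin 2) (Fin 2) T) 0 0)
    rw [Matrix.one_apply_eq]
    have : 1 + a - e - a * b + a * b * e - 1 = a - e - a * b + a * b * e := by abel
    rw [this]
    exact ((ha.sub he).sub (ha.mul hb)).add ((ha.mul hb).mul he)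
  · show InC e' (e - a * b * e - (1 : Matrix (Fin 2) (Fin 2) T) 0 1)
    rw [Matrix.one_apply_ne (by decide), sub_zero]
    exact he.sub ((ha.mul hb).mul he)
  · show InC e' (b - b * e - (1 : Matrix (Fin 2) (Fin 2) T) 1 0)
    rw [Matrix.one_apply_ne (by decide), sub_zero]
    exact hb.sub (hb.mul he)
  · show InC e' (1 - e + b * e - (1 : Matrix (Fin 2) (Fin 2) T) 1 1)
    rw [Matrix.one_apply_eq]
    have : 1 - e + b * e - 1 = b * e - e := by abel
    rw [this]
    exact (hb.mul he).sub he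

end ring

variable {C : ∀ (G : Type) [Group G], Prop}

/-- the criterion for units of rings -/
theorem crit (hC : ClosedE C) {T : Type} [Ring T] (J : Set T) (hl : ∀ t, ∀ x ∈ J, t * x ∈ J)
    (hr : ∀ t, ∀ x ∈ J, x * t ∈ J) (D : Set T)
    (hu : ∀ X : Finset T, (∀ x ∈ X, x ∈ J) → ∃ e ∈ D, e * e = e ∧ ∀ x ∈ X, InC e x)
    (hDJ : D ⊆ J)
    (hP : ∀ e ∈ D, e * e = e → C (Loc (diagonal fun _ => e : Matrix (Fin 2) (Fin 2) T)))
    {G : Type} [Group G] (N : Subgroup G) [N.Normal] (hQ : C (G ⧸ N)) (ρ : G →* Tˣ)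
    (hinj : ∀ x ∈ N, ρ x = 1 → x = 1) (hN : ∀ x ∈ N, (ρ x).val - 1 ∈ J) : C G := by
  classical
  refine Pool.Agent.R779.FJ.t_crit Pool.Agent.Y529.FJ.t_ext
    (Pool.Agent.Y961.FJ.t_perm Pool.Agent.Y529.FJ.t_ext) C hC G N hQ ?_
  intro g E hE hEN
  obtain ⟨e, heD, he, hX⟩ := hu (hE.toFinset.image fun x => (ρ x).val - 1) (by
    intro x hx
    rw [Finset.mem_image] at hx
    obtain ⟨y, hy, rfl⟩ := hx
    exact hN y (hEN (hE.mem_toFinset.1 hy)))
  have hX' : ∀ x ∈ E, InC e ((ρ x).val - 1) := fun x hx =>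
    hX _ (Finset.mem_image_of_mem _ (hE.mem_toFinset.2 hx))
  obtain ⟨e', heD', he', hX2⟩ := hu {e, (ρ g).val * e, e * (ρ g)⁻¹.val} (by
    intro x hx
    simp only [Finset.mem_insert, Finset.mem_singleton] at hx
    rcases hx with rfl | rfl | rfl
    · exact hDJ heD
    · exact hl _ _ (hDJ heD)
    · exact hr _ _ (hDJ heD))
  obtain ⟨a, ha⟩ : ∃ a, a = (ρ g).val * e := ⟨_, rfl⟩
  obtain ⟨b, hb⟩ : ∃ b, b = e * (ρ g)⁻¹.val := ⟨_, rfl⟩
  have hee : InC e' e := hX2 e (by simp)
  have hea : InC e' a := hX2 a (by simp [ha])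
  have heb : InC e' b := hX2 b (by simp [hb])
  have hae : a * e = a := by rw [ha, mul_assoc, he]
  have heb' : e * b = b := by rw [hb, ← mul_assoc, he]
  have hba : b * a = e := by
    rw [ha, hb, mul_assoc, ← mul_assoc (ρ g)⁻¹.val, Units.inv_mul, one_mul, he]
  -- conjugation by `g`
  have hconj : ∀ x ∈ E, (ρ (g * x * g⁻¹)).val = 1 + a * ((ρ x).val - 1) * b := by
    intro x hx
    have h1 := hX' x hx
    have h2 : a * ((ρ x).val - 1) * b = (ρ g).val * ((ρ x).val - 1) * (ρ g)⁻¹.val := by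
      rw [ha, hb]
      calc (ρ g).val * e * ((ρ x).val - 1) * (e * (ρ g)⁻¹.val)
          = (ρ g).val * (e * ((ρ x).val - 1) * e) * (ρ g)⁻¹.val := by noncomm_ring
        _ = _ := by rw [h1.1, h1.2]
    rw [h2, mul_sub, sub_mul, mul_one, Units.mul_inv, map_mul, map_mul, map_inv, Units.val_mul,
      Units.val_mul, add_sub_cancel]
  obtain ⟨L, hL⟩ : ∃ L : Subgroup G,
      L = Subgroup.closure (E ∪ (fun x => g * x * g⁻¹) '' E) := ⟨_, rfl⟩
  have hLloc : L ≤ (Loc e').comap ρ := by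
    rw [hL, Subgroup.closure_le]
    rintro x (hx | ⟨x, hx, rfl⟩)
    · show InC e' ((ρ x).val - 1)
      have h1 := hX' x hx
      refine ⟨?_, ?_⟩
      · rw [← h1.1, ← mul_assoc, hee.1]
      · rw [← h1.2, mul_assoc, hee.2]
    · show InC e' ((ρ (g * x * g⁻¹)).val - 1)
      rw [hconj x hx, add_sub_cancel_left]
      refine ⟨?_, ?_⟩
      · rw [mul_assoc, ← mul_assoc, hea.1]
      · rw [mul_assoc, heb.2]
  have hLN : L ≤ N := by
    rw [hL, Subgroup.closure_le]
    rintro x (hx | ⟨x, hx, rfl⟩)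
    · exact hEN hx
    · exact Subgroup.Normal.conj_mem inferInstance x (hEN hx) g
  unfold Realized
  rw [← hL]
  let f : L →* Loc (diagonal fun _ => e' : Matrix (Fin 2) (Fin 2) T) :=
    ((dg.comp ρ).comp L.subtype).codRestrict _ fun x => dg_mem (hLloc x.2)
  let p : Loc (diagonal fun _ => e' : Matrix (Fin 2) (Fin 2) T) :=
    ⟨⟨pm a b e, vm a b e, pm_vm he hae heb' hba, vm_pm he hae heb' hba⟩,
      pm_mem hee hea heb rfl⟩
  refine ⟨Loc (diagonal fun _ => e' : Matrix (Fin 2) (Fin 2) T), inferInstance, f, p,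
    hP e' heD' he', ?_, ?_⟩
  · rw [injective_iff_map_eq_one]
    intro x hx
    apply Subtype.ext
    apply hinj x.1 (hLN x.2)
    apply dg_injective
    rw [map_one]
    exact congrArg Subtype.val hx
  · intro x y hx hy
    rw [eq_mul_inv_iff_mul_eq]
    apply Subtype.ext
    apply Units.ext
    show (dg (ρ y.1)).val * pm a b e = pm a b e * (dg (ρ x.1)).val
    rw [dg_val, dg_val, hy, hconj x.1 hx]
    have h1 := pm_conj he hae heb' hba (hX' x.1 hx)
    rw [add_sub_cancel] at h1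
    exact h1.symm

section matrices

variable {S : Type} [Ring S]

/-- the matrices over `M_n(S)` are the matrices over `S` -/
def blk (n : ℕ) : Matrix (Fin 2) (Fin 2) (Matrix (Fin n) (Fin n) S) ≃+*
    Matrix (Fin 2 × Fin n) (Fin 2 × Fin n) S := Matrix.compRingEquiv (Fin 2) (Fin n) S

theorem blk_apply {n : ℕ} (x : Matrix (Fin 2) (Fin 2) (Matrix (Fin n) (Fin n) S))
    (i j : Fin 2 × Fin n) : blk n x i j = x i.1 j.1 i.2 j.2 := rfl

theorem C_Loc (hC : ClosedE C) {e : S} (he : IsIdempotentElem e)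
    (hK : ∀ m : ℕ, C ((Matrix (Fin m) (Fin m) he.Corner)ˣ)) (n : ℕ) :
    C (Loc (diagonal fun _ => (diagonal fun _ => e : Matrix (Fin n) (Fin n) S) :
      Matrix (Fin 2) (Fin 2) (Matrix (Fin n) (Fin n) S))) := by
  have h1 : C ((Matrix (Fin 2 × Fin n) (Fin 2 × Fin n) he.Corner)ˣ) :=
    hC.base.of_injective _ _ (Units.mapEquiv
      (Matrix.reindexRingEquiv he.Corner (Fintype.equivFin (Fin 2 × Fin n))).toMulEquiv).toMonoidHom
      (Units.mapEquiv
      (Matrix.reindexRingEquiv he.Corner (Fintype.equivFin (Fin 2 × Fin n))).toMulEquiv).injective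
      (hK _)
  have h2 : C (Loc (diagonal fun _ => e : Matrix (Fin 2 × Fin n) (Fin 2 × Fin n) S)) :=
    hC.base.of_injective _ _ (locCorner he) (locCorner_injective he) h1
  let f : Loc (diagonal fun _ => (diagonal fun _ => e : Matrix (Fin n) (Fin n) S) :
      Matrix (Fin 2) (Fin 2) (Matrix (Fin n) (Fin n) S)) →*
      Loc (diagonal fun _ => e : Matrix (Fin 2 × Fin n) (Fin 2 × Fin n) S) :=
    ((Units.mapEquiv (blk n).toMulEquiv).toMonoidHom.comp (Subgroup.subtype _)).codRestrict _ (by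
      rintro ⟨x, hx⟩
      rw [mem_Loc, InC_diag] at hx
      rw [mem_Loc, InC_diag]
      intro i j
      have h3 := InC_diag.1 (hx i.1 j.1) i.2 j.2
      have h4 : (x.val - 1) i.1 j.1 i.2 j.2 = (blk n x.val - 1) i j := by
        rw [← map_one (blk (S := S) n), ← map_sub, blk_apply]
      show InC e ((blk n x.val - 1) i j)
      rw [← h4]
      exact h3)
  refine hC.base.of_injective _ _ f ?_ h2
  intro x y hxy
  apply Subtype.ext
  exact (Units.mapEquiv (blk (S := S) n).toMulEquiv).injective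
    (show (Units.mapEquiv (blk n).toMulEquiv) x.1 = (Units.mapEquiv (blk n).toMulEquiv) y.1 from
      congrArg Subtype.val hxy)

/-- **ideals with local units** -/
theorem local_units (hC : ClosedE C) (I : Ideal S) [I.IsTwoSided]
    (hI : ∀ X : Finset S, (∀ x ∈ X, x ∈ I) →
      ∃ e ∈ I, IsIdempotentElem e ∧ ∀ x ∈ X, e * x = x ∧ x * e = x)
    (hK : ∀ (e : S) (he : IsIdempotentElem e), e ∈ I → ∀ m : ℕ,
      C ((Matrix (Fin m) (Fin m) he.Corner)ˣ)) (n : ℕ)
    {G : Type} [Group G] (N : Subgroup G) [N.Normal] (hQ : C (G ⧸ N))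
    (ρ : G →* (Matrix (Fin n) (Fin n) S)ˣ) (hinj : ∀ x ∈ N, ρ x = 1 → x = 1)
    (hN : ∀ x ∈ N, ∀ i j, (ρ x).val i j - (1 : Matrix (Fin n) (Fin n) S) i j ∈ I) : C G := by
  classical
  refine crit hC {x : Matrix (Fin n) (Fin n) S | ∀ i j, x i j ∈ I} ?_ ?_
    {x | ∃ e ∈ I, IsIdempotentElem e ∧ x = diagonal fun _ => e} ?_ ?_ ?_ N hQ ρ hinj hN
  · intro t x hx i j
    rw [Matrix.mul_apply]
    exact Ideal.sum_mem _ fun k _ => I.mul_mem_left _ (hx k j)
  · intro t x hx i j
    rw [Matrix.mul_apply]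
    exact Ideal.sum_mem _ fun k _ => I.mul_mem_right _ (hx i k)
  · intro X hX
    obtain ⟨e, he, he2, h⟩ := hI (X.biUnion fun x => Finset.univ.biUnion fun i =>
      Finset.univ.image fun j => x i j) (by
        intro y hy
        simp only [Finset.mem_biUnion, Finset.mem_image, Finset.mem_univ, true_and] at hy
        obtain ⟨x, hx, i, j, rfl⟩ := hy
        exact hX x hx i j)
    refine ⟨diagonal fun _ => e, ⟨e, he, he2, rfl⟩, diag_idem he2.eq, fun x hx => ?_⟩
    rw [InC_diag]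
    intro i j
    refine h _ ?_
    simp only [Finset.mem_biUnion, Finset.mem_image, Finset.mem_univ, true_and]
    exact ⟨x, hx, i, j, rfl⟩
  · rintro _ ⟨e, he, _, rfl⟩ i j
    by_cases h : i = j
    · subst h
      rw [diagonal_apply_eq]
      exact he
    · rw [diagonal_apply_ne _ h]
      exact I.zero_mem
  · rintro _ ⟨e, he, he2, rfl⟩ _
    exact C_Loc hC he2 (hK e he2 he) n

/-- the general linear groups -/
theorem gl_quot (hC : ClosedE C) (I : Ideal S) [I.IsTwoSided]
    (hI : ∀ X : Finset S, (∀ x ∈ X, x ∈ I) →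
      ∃ e ∈ I, IsIdempotentElem e ∧ ∀ x ∈ X, e * x = x ∧ x * e = x)
    (hK : ∀ (e : S) (he : IsIdempotentElem e), e ∈ I → ∀ m : ℕ,
      C ((Matrix (Fin m) (Fin m) he.Corner)ˣ)) (n : ℕ)
    (hQ : C ((Matrix (Fin n) (Fin n) (S ⧸ I))ˣ)) : C ((Matrix (Fin n) (Fin n) S)ˣ) := by
  let π : (Matrix (Fin n) (Fin n) S)ˣ →* (Matrix (Fin n) (Fin n) (S ⧸ I))ˣ :=
    Units.map (Ideal.Quotient.mk I).mapMatrix.toMonoidHom
  refine local_units hC I hI hK n π.ker
    (hC.base.of_injective _ _ (QuotientGroup.kerLift π) (QuotientGroup.kerLift_injective π) hQ)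
    (MonoidHom.id _) (fun x _ h => h) ?_
  intro x hx i j
  have h1 : (Ideal.Quotient.mk I).mapMatrix x.val = 1 := congrArg Units.val hx
  have h2 := congrFun (congrFun h1 i) j
  rw [← Ideal.Quotient.eq, MonoidHom.id_apply]
  refine Eq.trans h2 ?_
  by_cases h : i = j
  · subst h
    rw [Matrix.one_apply_eq, Matrix.one_apply_eq, map_one]
  · rw [Matrix.one_apply_ne h, Matrix.one_apply_ne h, map_zero]

end matrices

end Pool.Agent.K7.H29.LU
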